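import Mathlib
import Pool.Agent.H769.Bridge

/-!
# Convex bodies homothetic to their second projection body

The structure of the solutions of `Π Π K ∼ K` in every dimension: they are exactly the direct sums
of centrally symmetric segments, centrally symmetric planar convex bodies, and SMOOTH solutions of
dimension at least three. This extends the theorem of Weil on polytopes (a polytope of dimension at
least three is not smooth) to arbitrary convex bodies.

How the definitions match the problem file: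
* `IsBody`: compact convex set with nonempty interior;
* `IsProj K P`: `P` is a convex body with `h_P(u) = vol_{n-1}(K | u^⊥)` for all unit vectors `u`,
  where `vol_{n-1}` is the Hausdorff measure `μHE[n - 1]` normalised to be Lebesgue measure on
  hyperplanes;
* `Homothetic K L`: `L = t K + x` with `t > 0`;
* `IsSolution K`: `K` is a convex body and `Π Π K` is homothetic to `K`;
* `IsDirectSum K d C`: up to a translation `K` is the Minkowski sum of the sets `A i (C i)`, where
  the `A i : ℝ^{d i} → ℝ^n` are injective linear maps and `ℝ^n` is the direct sum of their ranges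
  (the property of being a solution is invariant under linear isomorphisms, so that it does not
  matter how the subspaces are identified with the spaces `ℝ^{d i}`).
-/

set_option autoImplicit false
open MeasureTheory Set Module
open scoped RealInnerProductSpace Pointwise

namespace Pool.Agent.Results.MP_19ad76_gt.DirectSumOfSmooth

/-- Euclidean `n`-space -/
abbrev E (n : ℕ) := EuclideanSpace ℝ (Fin n)

/-- convex body: compact convex set with nonempty interior -/
def IsBody {n : ℕ} (K : Set (E n)) : Prop :=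
  Convex ℝ K ∧ IsCompact K ∧ (interior K).Nonempty

/-- support function `h_K(u) = max_{x ∈ K} ⟪u, x⟫` -/
noncomputable def supportFn {n : ℕ} (K : Set (E n)) (u : E n) : ℝ := sSup ((fun x => ⟪u, x⟫) '' K)

/-- orthogonal projection of `K` onto the hyperplane `u^⊥` -/
noncomputable def shadow {n : ℕ} (K : Set (E n)) (u : E n) : Set (E n) :=
  (Submodule.span ℝ {u})ᗮ.starProjection '' K

/-- `P` is the projection body `Π K` -/
def IsProj {n : ℕ} (K P : Set (E n)) : Prop :=
  IsBody P ∧ ∀ u, ‖u‖ = 1 → supportFn P u = (μHE[n - 1] (shadow K u)).toReal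

/-- `L = t K + x` for some `t > 0` and some `x` -/
def Homothetic {n : ℕ} (K L : Set (E n)) : Prop :=
  ∃ t : ℝ, 0 < t ∧ ∃ x, L = (fun y => t • y + x) '' K

/-- `K` is a convex body and `Π Π K` is homothetic to `K` -/
def IsSolution {n : ℕ} (K : Set (E n)) : Prop :=
  IsBody K ∧ ∃ P Q, IsProj K P ∧ IsProj P Q ∧ Homothetic K Q

/-- symmetric with respect to the origin -/
def Symmetric {n : ℕ} (K : Set (E n)) : Prop := ∀ x ∈ K, -x ∈ K

/-- smooth: no point of `K` has two different unit outer normal vectors -/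
def Smooth {n : ℕ} (K : Set (E n)) : Prop :=
  ∀ y ∈ K, ∀ u v : E n, ‖u‖ = 1 → ‖v‖ = 1 → (∀ z ∈ K, ⟪u, z⟫ ≤ ⟪u, y⟫) →
    (∀ z ∈ K, ⟪v, z⟫ ≤ ⟪v, y⟫) → u = v

/-- up to a translation, `K` is the direct sum of linear copies of the sets `C i ⊂ ℝ^{d i}` -/
def IsDirectSum {n : ℕ} (K : Set (E n)) {m : ℕ} (d : Fin m → ℕ)
    (C : (i : Fin m) → Set (E (d i))) : Prop :=
  ∃ (A : (i : Fin m) → (E (d i) →ₗ[ℝ] E n)) (x : E n), (∀ i, Function.Injective (A i)) ∧
    DirectSum.IsInternal (fun i => LinearMap.range (A i)) ∧ K = {x} + ∑ i, A i '' C i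

open Pool.Agent.H769.Zono in
theorem proj_iff {k : ℕ} {K P : Set (E (k + 1))} :
    IsProj K P ↔ IsBody P ∧ ∀ u, supp P u = Pool.Agent.H229R2.PB3.hPi K u := by
  constructor
  · rintro ⟨hP, h⟩
    refine ⟨hP, fun u => ?_⟩
    have hn : P.Nonempty := hP.2.2.mono interior_subset
    by_cases hu : u = 0
    · subst hu
      rw [supp_zero hn]; simp [Pool.Agent.H229R2.PB3.hPi]
    have hu' : ‖u‖ ≠ 0 := norm_ne_zero_iff.2 hu
    have h1 : ‖‖u‖⁻¹ • u‖ = 1 := by rw [norm_smul, norm_inv, norm_norm, inv_mul_cancel₀ hu']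
    have h2 := h _ h1
    unfold shadow at h2
    rw [image_shadow _ h1] at h2
    have h3 : u = ‖u‖ • (‖u‖⁻¹ • u) := by rw [smul_smul, mul_inv_cancel₀ hu', one_smul]
    conv_lhs => rw [h3]
    rw [supp_smul_right hP.2.1 hn (norm_nonneg u)]
    unfold Pool.Agent.H229R2.PB3.hPi Pool.Agent.H229R2.PB3.projVol
    congr 1
  · rintro ⟨hP, h⟩
    refine ⟨hP, fun u hu => ?_⟩
    have h1 := h u
    unfold Pool.Agent.H229R2.PB3.hPi Pool.Agent.H229R2.PB3.projVol at h1
    unfold shadow
    rw [image_shadow _ hu]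
    rw [hu, inv_one, one_smul, one_mul] at h1
    exact h1

open Pool.Agent.H769.Zono in
theorem solution_iff {k : ℕ} {K : Set (E (k + 1))} :
    IsSolution K ↔ ∃ (x : E (k + 1)) (P : Set (E (k + 1))) (lam : ℝ), Sol ({x} + K) P lam := by
  constructor
  · rintro ⟨hK, P, Q, hP, hQ, t, ht, x, rfl⟩
    rw [proj_iff] at hP hQ
    have hn : K.Nonempty := hK.2.2.mono interior_subset
    have hset : (fun y => t • y + x) '' K = {x} + t • K := by
      ext z
      simp only [mem_image, Set.singleton_add, Set.mem_smul_set]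
      constructor
      · rintro ⟨y, hy, rfl⟩; exact ⟨t • y, ⟨y, hy, rfl⟩, add_comm _ _⟩
      · rintro ⟨_, ⟨y, hy, rfl⟩, rfl⟩; exact ⟨y, hy, add_comm _ _⟩
    have hb : IsBody ({t⁻¹ • x} + K) := by
      refine ⟨(convex_singleton _).add hK.1, isCompact_singleton.add hK.2.1, ?_⟩
      rw [Set.singleton_add]
      exact (hK.2.2.image _).mono
        ((Homeomorph.addLeft (t⁻¹ • x)).isOpenMap.image_interior_subset K)
    refine ⟨t⁻¹ • x, P, t, ⟨hb.1, hb.2.1, hb.2.2, hP.1.1, hP.1.2.1, hP.1.2.2, ?_, ?_, ht⟩⟩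
    · intro u
      rw [hPi_translate hK.1 hK.2.1, hP.2]
    · intro u
      rw [← hQ.2 u, hset, supp_add isCompact_singleton (hK.2.1.smul t) (singleton_nonempty x)
        hn.smul_set, supp_add isCompact_singleton hK.2.1 (singleton_nonempty _) hn,
        supp_singleton, supp_singleton, supp_smul hK.2.1 hn ht.le, inner_smul_right, mul_add,
        ← mul_assoc, mul_inv_cancel₀ ht.ne', one_mul]
  · rintro ⟨x, P, lam, h⟩
    have hK' : K = {-x} + ({x} + K) := by
      rw [← add_assoc, Set.singleton_add_singleton, neg_add_cancel, Set.singleton_zero, zero_add]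
    have hb : IsBody K := by
      refine ⟨?_, ?_, ?_⟩
      · rw [hK']; exact (convex_singleton _).add h.Kc
      · rw [hK']; exact isCompact_singleton.add h.Kk
      · rw [hK', Set.singleton_add]
        exact (h.Ki.image _).mono ((Homeomorph.addLeft (-x)).isOpenMap.image_interior_subset _)
    refine ⟨hb, P, lam • ({x} + K), ?_, ?_, lam, h.pos, lam • x, ?_⟩
    · rw [proj_iff]
      refine ⟨⟨h.Pc, h.Pk, h.Pi⟩, fun u => ?_⟩
      rw [h.hP, hPi_translate hb.1 hb.2.1]
    · rw [proj_iff]
      refine ⟨⟨h.Kc.smul _, h.Kk.smul _, ?_⟩, fun u => ?_⟩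
      · rw [interior_smul₀ h.pos.ne']; exact h.Ki.smul_set
      · rw [h.hQ, supp_smul h.Kk h.Kn h.pos.le]
    · ext z
      simp only [mem_image, Set.singleton_add, Set.mem_smul_set]
      constructor
      · rintro ⟨_, ⟨y, hy, rfl⟩, rfl⟩
        exact ⟨y, hy, by rw [smul_add]; exact add_comm _ _⟩
      · rintro ⟨y, hy, rfl⟩
        exact ⟨x + y, ⟨y, hy, rfl⟩, by rw [smul_add]; exact add_comm _ _⟩

open Pool.Agent.H769.Zono in
/-- **Theorem.** For `n ≥ 1`, a set `K ⊂ ℝ^n` is a convex body with `Π Π K` homothetic to `K` if and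
only if it is a direct sum of linear copies of origin-symmetric convex bodies `C i ⊂ ℝ^{d i}` each
of which has dimension one or two, or has dimension at least three and is a smooth convex body with
`Π Π (C i)` homothetic to `C i`. -/
theorem result (n : ℕ) (hn : 1 ≤ n) (K : Set (E n)) :
    IsSolution K ↔ ∃ (m : ℕ) (d : Fin m → ℕ) (C : (i : Fin m) → Set (E (d i))),
      IsDirectSum K d C ∧ ∀ i, IsBody (C i) ∧ Symmetric (C i) ∧
        (d i = 1 ∨ d i = 2 ∨ (3 ≤ d i ∧ IsSolution (C i) ∧ Smooth (C i))) := by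
  obtain ⟨k, rfl⟩ : ∃ k, n = k + 1 := ⟨n - 1, by omega⟩
  constructor
  · intro h
    rw [solution_iff] at h
    obtain ⟨x, P, lam, h⟩ := h
    obtain ⟨ι, i1, i2, κ, J, C, hKC, hC⟩ := h.decomp
    rw [hKC] at h
    set e := (Fintype.equivFin ι).symm with he
    refine ⟨Fintype.card ι, fun i => κ (e i) + 1, fun i => C (e i), ⟨fun i =>
      (emb J (e i)).toLinearMap, -x, ?_, internal_of_J J e, ?_⟩, fun i => ?_⟩
    · intro i a b hab
      have hab' : J (Pi.single (e i) a) = J (Pi.single (e i) b) := hab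
      have h2 := congrFun (J.injective hab') (e i)
      rwa [Pi.single_eq_same, Pi.single_eq_same] at h2
    · have h1 : ∑ i, (emb J (e i)).toLinearMap '' C (e i) = dsum J C := by
        rw [dsum_eq, ← e.sum_comp]
        rfl
      rw [h1, ← hKC, ← add_assoc, Set.singleton_add_singleton, neg_add_cancel,
        Set.singleton_zero, zero_add]
    · obtain ⟨c1, c2, c3, c4, c5⟩ := hC (e i)
      refine ⟨⟨c1, c2, c3⟩, zon_symm c1 c2 (c3.mono interior_subset) c4, ?_⟩
      by_cases h3 : 3 ≤ κ (e i) + 1
      · right; right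
        refine ⟨h3, ?_, ?_⟩
        · rw [solution_iff]
          obtain ⟨Pi, li, hs⟩ := h.summand (fun j => (hC j).1) (fun j => (hC j).2.1)
            (fun j => (hC j).2.2.1) (fun j => (hC j).2.2.2.1) (e i)
          exact ⟨0, Pi, li, by rwa [Set.singleton_zero, zero_add]⟩
        · obtain ⟨m, hm, ⟨R, hR⟩, hg, hfull⟩ := c5 h3
          intro y hy u v hu hv h1 h2
          exact smooth_of_full c2 hR hg hfull hy hu hv h1 h2
      · rcases (by omega : κ (e i) + 1 = 1 ∨ κ (e i) + 1 = 2) with h4 | h4
        · exact Or.inl h4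
        · exact Or.inr (Or.inl h4)
  · rintro ⟨m, d, C, ⟨A, x, hA, hint, hK⟩, hC⟩
    obtain ⟨κ, hκ⟩ : ∃ κ : Fin m → ℕ, ∀ i, d i = κ i + 1 := by
      refine ⟨fun i => d i - 1, fun i => ?_⟩
      change d i = d i - 1 + 1
      rcases (hC i).2.2 with h | h | ⟨h, _⟩
      · omega
      · omega
      · omega
    obtain rfl : d = fun i => κ i + 1 := funext hκ
    obtain ⟨J, hJ⟩ := J_of_internal A hA hint
    have hsol : ∀ i, ∃ (P : Set (E (κ i + 1))) (lam : ℝ), Sol (C i) P lam := by
      intro i
      obtain ⟨hb, hs, hd⟩ := hC i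
      have hcn : (C i).Nonempty := hb.2.2.mono interior_subset
      rcases hd with hd | hd | ⟨_, hd, _⟩
      · exact sol_low (by simp only at hd; omega) hb.1 hb.2.1 hb.2.2 hs
      · exact sol_low (by simp only at hd; omega) hb.1 hb.2.1 hb.2.2 hs
      · rw [solution_iff] at hd
        obtain ⟨y, P, lam, hd⟩ := hd
        have hy : y = 0 := translate_symm hb.2.1 hcn hs (zon_symm hd.Kc hd.Kk hd.Kn hd.zonK)
        subst hy
        rw [Set.singleton_zero, zero_add] at hd
        exact ⟨P, lam, hd⟩
    choose Pb l hl using hsol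
    obtain ⟨P, lam, h⟩ := Sol.dsum hl J
    rw [solution_iff]
    refine ⟨-x, P, lam, ?_⟩
    have h1 : ({-x} + K : Set (E (k + 1))) = dsum J C := by
      rw [hK, ← add_assoc, Set.singleton_add_singleton, neg_add_cancel, Set.singleton_zero,
        zero_add, dsum_eq]
      refine Finset.sum_congr rfl fun i _ => ?_
      refine Set.image_congr fun z _ => ?_
      exact (hJ i z).symm
    rwa [h1]

end Pool.Agent.Results.MP_19ad76_gt.DirectSumOfSmooth
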